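import Pool.Agent.Helper33.SHR.Dat

/-! # SHR row NUM2: checks 46-91 -/

namespace SHR

set_option maxRecDepth 1000000 in
theorem n46 : chk 3 zz 16 TE TN o46 o47 = true := by decide +kernel

set_option maxRecDepth 1000000 in
theorem n47 : chk 3 zz 16 TE TN o47 o48 = true := by decide +kernel

set_option maxRecDepth 1000000 in
theorem n48 : chk 3 zz 16 TE TN o48 o49 = true := by decide +kernel

set_option maxRecDepth 1000000 in
theorem n49 : chk 3 zz 16 TE TN o49 o50 = true := by decide +kernel

set_option maxRecDepth 1000000 in
theorem n50 : chk 3 zz 16 TE TN o50 o51 = true := by decide +kernel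

set_option maxRecDepth 1000000 in
theorem n51 : chk 3 zz 16 TE TN o51 o52 = true := by decide +kernel

set_option maxRecDepth 1000000 in
theorem n52 : chk 3 zz 16 TE TN o52 o53 = true := by decide +kernel

set_option maxRecDepth 1000000 in
theorem n53 : chk 3 zz 16 TE TN o53 o54 = true := by decide +kernel

set_option maxRecDepth 1000000 in
theorem n54 : chk 3 zz 16 TE TN o54 o55 = true := by decide +kernel

set_option maxRecDepth 1000000 in
theorem n55 : chk 3 zz 16 TE TN o55 o56 = true := by decide +kernel

set_option maxRecDepth 1000000 in
theorem n56 : chk 3 zz 16 TE TN o56 o57 = true := by decide +kernel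

set_option maxRecDepth 1000000 in
theorem n57 : chk 3 zz 16 TE TN o57 o58 = true := by decide +kernel

set_option maxRecDepth 1000000 in
theorem n58 : chk 3 zz 16 TE TN o58 o59 = true := by decide +kernel

set_option maxRecDepth 1000000 in
theorem n59 : chk 3 zz 16 TE TN o59 o60 = true := by decide +kernel

set_option maxRecDepth 1000000 in
theorem n60 : chk 3 zz 16 TE TN o60 o61 = true := by decide +kernel

set_option maxRecDepth 1000000 in
theorem n61 : chk 3 zz 16 TE TN o61 o62 = true := by decide +kernel

set_option maxRecDepth 1000000 in
theorem n62 : chk 3 zz 16 TE TN o62 o63 = true := by decide +kernel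

set_option maxRecDepth 1000000 in
theorem n63 : chk 3 zz 16 TE TN o63 o64 = true := by decide +kernel

set_option maxRecDepth 1000000 in
theorem n64 : chk 3 zz 16 TE TN o64 o65 = true := by decide +kernel

set_option maxRecDepth 1000000 in
theorem n65 : chk 3 zz 16 TE TN o65 o66 = true := by decide +kernel

set_option maxRecDepth 1000000 in
theorem n66 : chk 3 zz 16 TE TN o66 o67 = true := by decide +kernel

set_option maxRecDepth 1000000 in
theorem n67 : chk 3 zz 16 TE TN o67 o68 = true := by decide +kernel

set_option maxRecDepth 1000000 in
theorem n68 : chk 3 zz 16 TE TN o68 o69 = true := by decide +kernel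

set_option maxRecDepth 1000000 in
theorem n69 : chk 3 zz 16 TE TN o69 o70 = true := by decide +kernel

set_option maxRecDepth 1000000 in
theorem n70 : chk 3 zz 16 TE TN o70 o71 = true := by decide +kernel

set_option maxRecDepth 1000000 in
theorem n71 : chk 3 zz 16 TE TN o71 o72 = true := by decide +kernel

set_option maxRecDepth 1000000 in
theorem n72 : chk 3 zz 16 TE TN o72 o73 = true := by decide +kernel

set_option maxRecDepth 1000000 in
theorem n73 : chk 3 zz 16 TE TN o73 o74 = true := by decide +kernel

set_option maxRecDepth 1000000 in
theorem n74 : chk 3 zz 16 TE TN o74 o75 = true := by decide +kernel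

set_option maxRecDepth 1000000 in
theorem n75 : chk 3 zz 16 TE TN o75 o76 = true := by decide +kernel

set_option maxRecDepth 1000000 in
theorem n76 : chk 3 zz 16 TE TN o76 o77 = true := by decide +kernel

set_option maxRecDepth 1000000 in
theorem n77 : chk 3 zz 16 TE TN o77 o78 = true := by decide +kernel

set_option maxRecDepth 1000000 in
theorem n78 : chk 3 zz 16 TE TN o78 o79 = true := by decide +kernel

set_option maxRecDepth 1000000 in
theorem n79 : chk 3 zz 16 TE TN o79 o80 = true := by decide +kernel

set_option maxRecDepth 1000000 in
theorem n80 : chk 3 zz 16 TE TN o80 o81 = true := by decide +kernel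

set_option maxRecDepth 1000000 in
theorem n81 : chk 3 zz 16 TE TN o81 o82 = true := by decide +kernel

set_option maxRecDepth 1000000 in
theorem n82 : chk 3 zz 16 TE TN o82 o83 = true := by decide +kernel

set_option maxRecDepth 1000000 in
theorem n83 : chk 3 zz 16 TE TN o83 o84 = true := by decide +kernel

set_option maxRecDepth 1000000 in
theorem n84 : chk 3 zz 16 TE TN o84 o85 = true := by decide +kernel

set_option maxRecDepth 1000000 in
theorem n85 : chk 3 zz 16 TE TN o85 o86 = true := by decide +kernel

set_option maxRecDepth 1000000 in
theorem n86 : chk 3 zz 16 TE TN o86 o87 = true := by decide +kernel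

set_option maxRecDepth 1000000 in
theorem n87 : chk 3 zz 16 TE TN o87 o88 = true := by decide +kernel

set_option maxRecDepth 1000000 in
theorem n88 : chk 3 zz 16 TE TN o88 o89 = true := by decide +kernel

set_option maxRecDepth 1000000 in
theorem n89 : chk 3 zz 16 TE TN o89 o90 = true := by decide +kernel

set_option maxRecDepth 1000000 in
theorem n90 : chk 3 zz 16 TE TN o90 o91 = true := by decide +kernel

set_option maxRecDepth 1000000 in
theorem n91 : chk 3 zz 16 TE TN o91 o92 = true := by decide +kernel

end SHR
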