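import Pool.Agent.Helper33.SHR.Dat

/-! # SHR row NUM2: checks 92-137 -/

namespace SHR

set_option maxRecDepth 1000000 in
theorem n92 : chk 3 zz 16 TE TN o92 o93 = true := by decide +kernel

set_option maxRecDepth 1000000 in
theorem n93 : chk 3 zz 16 TE TN o93 o94 = true := by decide +kernel

set_option maxRecDepth 1000000 in
theorem n94 : chk 3 zz 16 TE TN o94 o95 = true := by decide +kernel

set_option maxRecDepth 1000000 in
theorem n95 : chk 3 zz 16 TE TN o95 o96 = true := by decide +kernel

set_option maxRecDepth 1000000 in
theorem n96 : chk 3 zz 16 TE TN o96 o97 = true := by decide +kernel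

set_option maxRecDepth 1000000 in
theorem n97 : chk 3 zz 16 TE TN o97 o98 = true := by decide +kernel

set_option maxRecDepth 1000000 in
theorem n98 : chk 3 zz 16 TE TN o98 o99 = true := by decide +kernel

set_option maxRecDepth 1000000 in
theorem n99 : chk 3 zz 16 TE TN o99 o100 = true := by decide +kernel

set_option maxRecDepth 1000000 in
theorem n100 : chk 3 zz 16 TE TN o100 o101 = true := by decide +kernel

set_option maxRecDepth 1000000 in
theorem n101 : chk 3 zz 16 TE TN o101 o102 = true := by decide +kernel

set_option maxRecDepth 1000000 in
theorem n102 : chk 3 zz 16 TE TN o102 o103 = true := by decide +kernel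

set_option maxRecDepth 1000000 in
theorem n103 : chk 3 zz 16 TE TN o103 o104 = true := by decide +kernel

set_option maxRecDepth 1000000 in
theorem n104 : chk 3 zz 16 TE TN o104 o105 = true := by decide +kernel

set_option maxRecDepth 1000000 in
theorem n105 : chk 3 zz 16 TE TN o105 o106 = true := by decide +kernel

set_option maxRecDepth 1000000 in
theorem n106 : chk 3 zz 16 TE TN o106 o107 = true := by decide +kernel

set_option maxRecDepth 1000000 in
theorem n107 : chk 3 zz 16 TE TN o107 o108 = true := by decide +kernel

set_option maxRecDepth 1000000 in
theorem n108 : chk 3 zz 16 TE TN o108 o109 = true := by decide +kernel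

set_option maxRecDepth 1000000 in
theorem n109 : chk 3 zz 16 TE TN o109 o110 = true := by decide +kernel

set_option maxRecDepth 1000000 in
theorem n110 : chk 3 zz 16 TE TN o110 o111 = true := by decide +kernel

set_option maxRecDepth 1000000 in
theorem n111 : chk 3 zz 16 TE TN o111 o112 = true := by decide +kernel

set_option maxRecDepth 1000000 in
theorem n112 : chk 3 zz 16 TE TN o112 o113 = true := by decide +kernel

set_option maxRecDepth 1000000 in
theorem n113 : chk 3 zz 16 TE TN o113 o114 = true := by decide +kernel

set_option maxRecDepth 1000000 in
theorem n114 : chk 3 zz 16 TE TN o114 o115 = true := by decide +kernel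

set_option maxRecDepth 1000000 in
theorem n115 : chk 3 zz 16 TE TN o115 o116 = true := by decide +kernel

set_option maxRecDepth 1000000 in
theorem n116 : chk 3 zz 16 TE TN o116 o117 = true := by decide +kernel

set_option maxRecDepth 1000000 in
theorem n117 : chk 3 zz 16 TE TN o117 o118 = true := by decide +kernel

set_option maxRecDepth 1000000 in
theorem n118 : chk 3 zz 16 TE TN o118 o119 = true := by decide +kernel

set_option maxRecDepth 1000000 in
theorem n119 : chk 3 zz 16 TE TN o119 o120 = true := by decide +kernel

set_option maxRecDepth 1000000 in
theorem n120 : chk 3 zz 16 TE TN o120 o121 = true := by decide +kernel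

set_option maxRecDepth 1000000 in
theorem n121 : chk 3 zz 16 TE TN o121 o122 = true := by decide +kernel

set_option maxRecDepth 1000000 in
theorem n122 : chk 3 zz 16 TE TN o122 o123 = true := by decide +kernel

set_option maxRecDepth 1000000 in
theorem n123 : chk 3 zz 16 TE TN o123 o124 = true := by decide +kernel

set_option maxRecDepth 1000000 in
theorem n124 : chk 3 zz 16 TE TN o124 o125 = true := by decide +kernel

set_option maxRecDepth 1000000 in
theorem n125 : chk 3 zz 16 TE TN o125 o126 = true := by decide +kernel

set_option maxRecDepth 1000000 in
theorem n126 : chk 3 zz 16 TE TN o126 o127 = true := by decide +kernel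

set_option maxRecDepth 1000000 in
theorem n127 : chk 3 zz 16 TE TN o127 o128 = true := by decide +kernel

set_option maxRecDepth 1000000 in
theorem n128 : chk 3 zz 16 TE TN o128 o129 = true := by decide +kernel

set_option maxRecDepth 1000000 in
theorem n129 : chk 3 zz 16 TE TN o129 o130 = true := by decide +kernel

set_option maxRecDepth 1000000 in
theorem n130 : chk 3 zz 16 TE TN o130 o131 = true := by decide +kernel

set_option maxRecDepth 1000000 in
theorem n131 : chk 3 zz 16 TE TN o131 o132 = true := by decide +kernel

set_option maxRecDepth 1000000 in
theorem n132 : chk 3 zz 16 TE TN o132 o133 = true := by decide +kernel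

set_option maxRecDepth 1000000 in
theorem n133 : chk 3 zz 16 TE TN o133 o134 = true := by decide +kernel

set_option maxRecDepth 1000000 in
theorem n134 : chk 3 zz 16 TE TN o134 o135 = true := by decide +kernel

set_option maxRecDepth 1000000 in
theorem n135 : chk 3 zz 16 TE TN o135 o136 = true := by decide +kernel

set_option maxRecDepth 1000000 in
theorem n136 : chk 3 zz 16 TE TN o136 o137 = true := by decide +kernel

set_option maxRecDepth 1000000 in
theorem n137 : chk 3 zz 16 TE TN o137 o138 = true := by decide +kernel

end SHR
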