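import Pool.Agent.Helper33.SHR.Dat

/-! # SHR row NUM2: checks 138-183 -/

namespace SHR

set_option maxRecDepth 1000000 in
theorem n138 : chk 3 zz 16 TE TN o138 o139 = true := by decide +kernel

set_option maxRecDepth 1000000 in
theorem n139 : chk 3 zz 16 TE TN o139 o140 = true := by decide +kernel

set_option maxRecDepth 1000000 in
theorem n140 : chk 3 zz 16 TE TN o140 o141 = true := by decide +kernel

set_option maxRecDepth 1000000 in
theorem n141 : chk 3 zz 16 TE TN o141 o142 = true := by decide +kernel

set_option maxRecDepth 1000000 in
theorem n142 : chk 3 zz 16 TE TN o142 o143 = true := by decide +kernel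

set_option maxRecDepth 1000000 in
theorem n143 : chk 3 zz 16 TE TN o143 o144 = true := by decide +kernel

set_option maxRecDepth 1000000 in
theorem n144 : chk 3 zz 16 TE TN o144 o145 = true := by decide +kernel

set_option maxRecDepth 1000000 in
theorem n145 : chk 3 zz 16 TE TN o145 o146 = true := by decide +kernel

set_option maxRecDepth 1000000 in
theorem n146 : chk 3 zz 16 TE TN o146 o147 = true := by decide +kernel

set_option maxRecDepth 1000000 in
theorem n147 : chk 3 zz 16 TE TN o147 o148 = true := by decide +kernel

set_option maxRecDepth 1000000 in
theorem n148 : chk 3 zz 16 TE TN o148 o149 = true := by decide +kernel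

set_option maxRecDepth 1000000 in
theorem n149 : chk 3 zz 16 TE TN o149 o150 = true := by decide +kernel

set_option maxRecDepth 1000000 in
theorem n150 : chk 3 zz 16 TE TN o150 o151 = true := by decide +kernel

set_option maxRecDepth 1000000 in
theorem n151 : chk 3 zz 16 TE TN o151 o152 = true := by decide +kernel

set_option maxRecDepth 1000000 in
theorem n152 : chk 3 zz 16 TE TN o152 o153 = true := by decide +kernel

set_option maxRecDepth 1000000 in
theorem n153 : chk 3 zz 16 TE TN o153 o154 = true := by decide +kernel

set_option maxRecDepth 1000000 in
theorem n154 : chk 3 zz 16 TE TN o154 o155 = true := by decide +kernel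

set_option maxRecDepth 1000000 in
theorem n155 : chk 3 zz 16 TE TN o155 o156 = true := by decide +kernel

set_option maxRecDepth 1000000 in
theorem n156 : chk 3 zz 16 TE TN o156 o157 = true := by decide +kernel

set_option maxRecDepth 1000000 in
theorem n157 : chk 3 zz 16 TE TN o157 o158 = true := by decide +kernel

set_option maxRecDepth 1000000 in
theorem n158 : chk 3 zz 16 TE TN o158 o159 = true := by decide +kernel

set_option maxRecDepth 1000000 in
theorem n159 : chk 3 zz 16 TE TN o159 o160 = true := by decide +kernel

set_option maxRecDepth 1000000 in
theorem n160 : chk 3 zz 16 TE TN o160 o161 = true := by decide +kernel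

set_option maxRecDepth 1000000 in
theorem n161 : chk 3 zz 16 TE TN o161 o162 = true := by decide +kernel

set_option maxRecDepth 1000000 in
theorem n162 : chk 3 zz 16 TE TN o162 o163 = true := by decide +kernel

set_option maxRecDepth 1000000 in
theorem n163 : chk 3 zz 16 TE TN o163 o164 = true := by decide +kernel

set_option maxRecDepth 1000000 in
theorem n164 : chk 3 zz 16 TE TN o164 o165 = true := by decide +kernel

set_option maxRecDepth 1000000 in
theorem n165 : chk 3 zz 16 TE TN o165 o166 = true := by decide +kernel

set_option maxRecDepth 1000000 in
theorem n166 : chk 3 zz 16 TE TN o166 o167 = true := by decide +kernel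

set_option maxRecDepth 1000000 in
theorem n167 : chk 3 zz 16 TE TN o167 o168 = true := by decide +kernel

set_option maxRecDepth 1000000 in
theorem n168 : chk 3 zz 16 TE TN o168 o169 = true := by decide +kernel

set_option maxRecDepth 1000000 in
theorem n169 : chk 3 zz 16 TE TN o169 o170 = true := by decide +kernel

set_option maxRecDepth 1000000 in
theorem n170 : chk 3 zz 16 TE TN o170 o171 = true := by decide +kernel

set_option maxRecDepth 1000000 in
theorem n171 : chk 3 zz 16 TE TN o171 o172 = true := by decide +kernel

set_option maxRecDepth 1000000 in
theorem n172 : chk 3 zz 16 TE TN o172 o173 = true := by decide +kernel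

set_option maxRecDepth 1000000 in
theorem n173 : chk 3 zz 16 TE TN o173 o174 = true := by decide +kernel

set_option maxRecDepth 1000000 in
theorem n174 : chk 3 zz 16 TE TN o174 o175 = true := by decide +kernel

set_option maxRecDepth 1000000 in
theorem n175 : chk 3 zz 16 TE TN o175 o176 = true := by decide +kernel

set_option maxRecDepth 1000000 in
theorem n176 : chk 3 zz 16 TE TN o176 o177 = true := by decide +kernel

set_option maxRecDepth 1000000 in
theorem n177 : chk 3 zz 16 TE TN o177 o178 = true := by decide +kernel

set_option maxRecDepth 1000000 in
theorem n178 : chk 3 zz 16 TE TN o178 o179 = true := by decide +kernel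

set_option maxRecDepth 1000000 in
theorem n179 : chk 3 zz 16 TE TN o179 o180 = true := by decide +kernel

set_option maxRecDepth 1000000 in
theorem n180 : chk 3 zz 16 TE TN o180 o181 = true := by decide +kernel

set_option maxRecDepth 1000000 in
theorem n181 : chk 3 zz 16 TE TN o181 o182 = true := by decide +kernel

set_option maxRecDepth 1000000 in
theorem n182 : chk 3 zz 16 TE TN o182 o183 = true := by decide +kernel

set_option maxRecDepth 1000000 in
theorem n183 : chk 3 zz 16 TE TN o183 o184 = true := by decide +kernel

end SHR
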