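import Pool.Agent.Helper33.SHR.Na
import Pool.Agent.Helper33.SHR.Nb
import Pool.Agent.Helper33.SHR.Nc
import Pool.Agent.Helper33.SHR.Nd

/-! # SHR row NUM2 -/

namespace SHR

/-- the sequence -/
def oo : ℕ → NOm
  | 0 => o0
  | 1 => o1
  | 2 => o2
  | 3 => o3
  | 4 => o4
  | 5 => o5
  | 6 => o6
  | 7 => o7
  | 8 => o8
  | 9 => o9
  | 10 => o10
  | 11 => o11
  | 12 => o12
  | 13 => o13
  | 14 => o14
  | 15 => o15
  | 16 => o16
  | 17 => o17
  | 18 => o18
  | 19 => o19
  | 20 => o20
  | 21 => o21
  | 22 => o22
  | 23 => o23
  | 24 => o24
  | 25 => o25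
  | 26 => o26
  | 27 => o27
  | 28 => o28
  | 29 => o29
  | 30 => o30
  | 31 => o31
  | 32 => o32
  | 33 => o33
  | 34 => o34
  | 35 => o35
  | 36 => o36
  | 37 => o37
  | 38 => o38
  | 39 => o39
  | 40 => o40
  | 41 => o41
  | 42 => o42
  | 43 => o43
  | 44 => o44
  | 45 => o45
  | 46 => o46
  | 47 => o47
  | 48 => o48
  | 49 => o49
  | 50 => o50
  | 51 => o51
  | 52 => o52
  | 53 => o53
  | 54 => o54
  | 55 => o55
  | 56 => o56
  | 57 => o57
  | 58 => o58
  | 59 => o59
  | 60 => o60
  | 61 => o61
  | 62 => o62
  | 63 => o63
  | 64 => o64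
  | 65 => o65
  | 66 => o66
  | 67 => o67
  | 68 => o68
  | 69 => o69
  | 70 => o70
  | 71 => o71
  | 72 => o72
  | 73 => o73
  | 74 => o74
  | 75 => o75
  | 76 => o76
  | 77 => o77
  | 78 => o78
  | 79 => o79
  | 80 => o80
  | 81 => o81
  | 82 => o82
  | 83 => o83
  | 84 => o84
  | 85 => o85
  | 86 => o86
  | 87 => o87
  | 88 => o88
  | 89 => o89
  | 90 => o90
  | 91 => o91
  | 92 => o92
  | 93 => o93
  | 94 => o94
  | 95 => o95
  | 96 => o96
  | 97 => o97
  | 98 => o98
  | 99 => o99
  | 100 => o100
  | 101 => o101
  | 102 => o102
  | 103 => o103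
  | 104 => o104
  | 105 => o105
  | 106 => o106
  | 107 => o107
  | 108 => o108
  | 109 => o109
  | 110 => o110
  | 111 => o111
  | 112 => o112
  | 113 => o113
  | 114 => o114
  | 115 => o115
  | 116 => o116
  | 117 => o117
  | 118 => o118
  | 119 => o119
  | 120 => o120
  | 121 => o121
  | 122 => o122
  | 123 => o123
  | 124 => o124
  | 125 => o125
  | 126 => o126
  | 127 => o127
  | 128 => o128
  | 129 => o129
  | 130 => o130
  | 131 => o131
  | 132 => o132
  | 133 => o133
  | 134 => o134
  | 135 => o135
  | 136 => o136
  | 137 => o137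
  | 138 => o138
  | 139 => o139
  | 140 => o140
  | 141 => o141
  | 142 => o142
  | 143 => o143
  | 144 => o144
  | 145 => o145
  | 146 => o146
  | 147 => o147
  | 148 => o148
  | 149 => o149
  | 150 => o150
  | 151 => o151
  | 152 => o152
  | 153 => o153
  | 154 => o154
  | 155 => o155
  | 156 => o156
  | 157 => o157
  | 158 => o158
  | 159 => o159
  | 160 => o160
  | 161 => o161
  | 162 => o162
  | 163 => o163
  | 164 => o164
  | 165 => o165
  | 166 => o166
  | 167 => o167
  | 168 => o168
  | 169 => o169
  | 170 => o170
  | 171 => o171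
  | 172 => o172
  | 173 => o173
  | 174 => o174
  | 175 => o175
  | 176 => o176
  | 177 => o177
  | 178 => o178
  | 179 => o179
  | 180 => o180
  | 181 => o181
  | 182 => o182
  | 183 => o183
  | _ => o184

theorem oo_chk : ∀ i, i < 184 → chk 3 zz 16 TE TN (oo i) (oo (i + 1)) = true := by
  intro i hi
  interval_cases i
  · exact n0
  · exact n1
  · exact n2
  · exact n3
  · exact n4
  · exact n5
  · exact n6
  · exact n7
  · exact n8
  · exact n9
  · exact n10
  · exact n11
  · exact n12
  · exact n13
  · exact n14
  · exact n15
  · exact n16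
  · exact n17
  · exact n18
  · exact n19
  · exact n20
  · exact n21
  · exact n22
  · exact n23
  · exact n24
  · exact n25
  · exact n26
  · exact n27
  · exact n28
  · exact n29
  · exact n30
  · exact n31
  · exact n32
  · exact n33
  · exact n34
  · exact n35
  · exact n36
  · exact n37
  · exact n38
  · exact n39
  · exact n40
  · exact n41
  · exact n42
  · exact n43
  · exact n44
  · exact n45
  · exact n46
  · exact n47
  · exact n48
  · exact n49
  · exact n50
  · exact n51
  · exact n52
  · exact n53
  · exact n54
  · exact n55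
  · exact n56
  · exact n57
  · exact n58
  · exact n59
  · exact n60
  · exact n61
  · exact n62
  · exact n63
  · exact n64
  · exact n65
  · exact n66
  · exact n67
  · exact n68
  · exact n69
  · exact n70
  · exact n71
  · exact n72
  · exact n73
  · exact n74
  · exact n75
  · exact n76
  · exact n77
  · exact n78
  · exact n79
  · exact n80
  · exact n81
  · exact n82
  · exact n83
  · exact n84
  · exact n85
  · exact n86
  · exact n87
  · exact n88
  · exact n89
  · exact n90
  · exact n91
  · exact n92
  · exact n93
  · exact n94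
  · exact n95
  · exact n96
  · exact n97
  · exact n98
  · exact n99
  · exact n100
  · exact n101
  · exact n102
  · exact n103
  · exact n104
  · exact n105
  · exact n106
  · exact n107
  · exact n108
  · exact n109
  · exact n110
  · exact n111
  · exact n112
  · exact n113
  · exact n114
  · exact n115
  · exact n116
  · exact n117
  · exact n118
  · exact n119
  · exact n120
  · exact n121
  · exact n122
  · exact n123
  · exact n124
  · exact n125
  · exact n126
  · exact n127
  · exact n128
  · exact n129
  · exact n130
  · exact n131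
  · exact n132
  · exact n133
  · exact n134
  · exact n135
  · exact n136
  · exact n137
  · exact n138
  · exact n139
  · exact n140
  · exact n141
  · exact n142
  · exact n143
  · exact n144
  · exact n145
  · exact n146
  · exact n147
  · exact n148
  · exact n149
  · exact n150
  · exact n151
  · exact n152
  · exact n153
  · exact n154
  · exact n155
  · exact n156
  · exact n157
  · exact n158
  · exact n159
  · exact n160
  · exact n161
  · exact n162
  · exact n163
  · exact n164
  · exact n165
  · exact n166
  · exact n167
  · exact n168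
  · exact n169
  · exact n170
  · exact n171
  · exact n172
  · exact n173
  · exact n174
  · exact n175
  · exact n176
  · exact n177
  · exact n178
  · exact n179
  · exact n180
  · exact n181
  · exact n182
  · exact n183

/-- the kernel computation: 184 steps -/
theorem st_NUM2 : ST_NUM2 := ⟨184, oo, rfl, oo_chk, by decide +kernel⟩

end SHR
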