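import Pool.Agent.Helper33.SHR.Dat

/-! # SHR row NUM2: checks 0-45 -/

namespace SHR

set_option maxRecDepth 1000000 in
theorem n0 : chk 3 zz 16 TE TN o0 o1 = true := by decide +kernel

set_option maxRecDepth 1000000 in
theorem n1 : chk 3 zz 16 TE TN o1 o2 = true := by decide +kernel

set_option maxRecDepth 1000000 in
theorem n2 : chk 3 zz 16 TE TN o2 o3 = true := by decide +kernel

set_option maxRecDepth 1000000 in
theorem n3 : chk 3 zz 16 TE TN o3 o4 = true := by decide +kernel

set_option maxRecDepth 1000000 in
theorem n4 : chk 3 zz 16 TE TN o4 o5 = true := by decide +kernel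

set_option maxRecDepth 1000000 in
theorem n5 : chk 3 zz 16 TE TN o5 o6 = true := by decide +kernel

set_option maxRecDepth 1000000 in
theorem n6 : chk 3 zz 16 TE TN o6 o7 = true := by decide +kernel

set_option maxRecDepth 1000000 in
theorem n7 : chk 3 zz 16 TE TN o7 o8 = true := by decide +kernel

set_option maxRecDepth 1000000 in
theorem n8 : chk 3 zz 16 TE TN o8 o9 = true := by decide +kernel

set_option maxRecDepth 1000000 in
theorem n9 : chk 3 zz 16 TE TN o9 o10 = true := by decide +kernel

set_option maxRecDepth 1000000 in
theorem n10 : chk 3 zz 16 TE TN o10 o11 = true := by decide +kernel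

set_option maxRecDepth 1000000 in
theorem n11 : chk 3 zz 16 TE TN o11 o12 = true := by decide +kernel

set_option maxRecDepth 1000000 in
theorem n12 : chk 3 zz 16 TE TN o12 o13 = true := by decide +kernel

set_option maxRecDepth 1000000 in
theorem n13 : chk 3 zz 16 TE TN o13 o14 = true := by decide +kernel

set_option maxRecDepth 1000000 in
theorem n14 : chk 3 zz 16 TE TN o14 o15 = true := by decide +kernel

set_option maxRecDepth 1000000 in
theorem n15 : chk 3 zz 16 TE TN o15 o16 = true := by decide +kernel

set_option maxRecDepth 1000000 in
theorem n16 : chk 3 zz 16 TE TN o16 o17 = true := by decide +kernel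

set_option maxRecDepth 1000000 in
theorem n17 : chk 3 zz 16 TE TN o17 o18 = true := by decide +kernel

set_option maxRecDepth 1000000 in
theorem n18 : chk 3 zz 16 TE TN o18 o19 = true := by decide +kernel

set_option maxRecDepth 1000000 in
theorem n19 : chk 3 zz 16 TE TN o19 o20 = true := by decide +kernel

set_option maxRecDepth 1000000 in
theorem n20 : chk 3 zz 16 TE TN o20 o21 = true := by decide +kernel

set_option maxRecDepth 1000000 in
theorem n21 : chk 3 zz 16 TE TN o21 o22 = true := by decide +kernel

set_option maxRecDepth 1000000 in
theorem n22 : chk 3 zz 16 TE TN o22 o23 = true := by decide +kernel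

set_option maxRecDepth 1000000 in
theorem n23 : chk 3 zz 16 TE TN o23 o24 = true := by decide +kernel

set_option maxRecDepth 1000000 in
theorem n24 : chk 3 zz 16 TE TN o24 o25 = true := by decide +kernel

set_option maxRecDepth 1000000 in
theorem n25 : chk 3 zz 16 TE TN o25 o26 = true := by decide +kernel

set_option maxRecDepth 1000000 in
theorem n26 : chk 3 zz 16 TE TN o26 o27 = true := by decide +kernel

set_option maxRecDepth 1000000 in
theorem n27 : chk 3 zz 16 TE TN o27 o28 = true := by decide +kernel

set_option maxRecDepth 1000000 in
theorem n28 : chk 3 zz 16 TE TN o28 o29 = true := by decide +kernel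

set_option maxRecDepth 1000000 in
theorem n29 : chk 3 zz 16 TE TN o29 o30 = true := by decide +kernel

set_option maxRecDepth 1000000 in
theorem n30 : chk 3 zz 16 TE TN o30 o31 = true := by decide +kernel

set_option maxRecDepth 1000000 in
theorem n31 : chk 3 zz 16 TE TN o31 o32 = true := by decide +kernel

set_option maxRecDepth 1000000 in
theorem n32 : chk 3 zz 16 TE TN o32 o33 = true := by decide +kernel

set_option maxRecDepth 1000000 in
theorem n33 : chk 3 zz 16 TE TN o33 o34 = true := by decide +kernel

set_option maxRecDepth 1000000 in
theorem n34 : chk 3 zz 16 TE TN o34 o35 = true := by decide +kernel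

set_option maxRecDepth 1000000 in
theorem n35 : chk 3 zz 16 TE TN o35 o36 = true := by decide +kernel

set_option maxRecDepth 1000000 in
theorem n36 : chk 3 zz 16 TE TN o36 o37 = true := by decide +kernel

set_option maxRecDepth 1000000 in
theorem n37 : chk 3 zz 16 TE TN o37 o38 = true := by decide +kernel

set_option maxRecDepth 1000000 in
theorem n38 : chk 3 zz 16 TE TN o38 o39 = true := by decide +kernel

set_option maxRecDepth 1000000 in
theorem n39 : chk 3 zz 16 TE TN o39 o40 = true := by decide +kernel

set_option maxRecDepth 1000000 in
theorem n40 : chk 3 zz 16 TE TN o40 o41 = true := by decide +kernel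

set_option maxRecDepth 1000000 in
theorem n41 : chk 3 zz 16 TE TN o41 o42 = true := by decide +kernel

set_option maxRecDepth 1000000 in
theorem n42 : chk 3 zz 16 TE TN o42 o43 = true := by decide +kernel

set_option maxRecDepth 1000000 in
theorem n43 : chk 3 zz 16 TE TN o43 o44 = true := by decide +kernel

set_option maxRecDepth 1000000 in
theorem n44 : chk 3 zz 16 TE TN o44 o45 = true := by decide +kernel

set_option maxRecDepth 1000000 in
theorem n45 : chk 3 zz 16 TE TN o45 o46 = true := by decide +kernel

end SHR
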